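import Pool.Agent.Q120.GE.Stm

set_option autoImplicit false

namespace Pool.Agent.Q26.GE

open Finset MeasureTheory ProbabilityTheory Filter Pool.Agent.Q120.ET Pool.Agent.Q120.GM
open Pool.Agent.Q120.GE

open Classical in
/-- events which depend on finitely many elements -/
theorem fin_meas {Ω ι : Type} (X : Ω → Set ι) (S : Finset ι) (G : Finset ι → Prop) :
    MeasurableSet[F X (S : Set ι)] {ω | G (S.filter (fun i => i ∈ X ω))} := by
  have h1 : {ω | G (S.filter (fun i => i ∈ X ω))} =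
      ⋃ T ∈ S.powerset.filter G, {ω | S.filter (fun i => i ∈ X ω) = T} := by
    ext ω
    simp only [Set.mem_ofPred_eq, Set.mem_iUnion, exists_prop, mem_filter, mem_powerset]
    constructor
    · intro h
      exact ⟨_, ⟨filter_subset _ _, h⟩, rfl⟩
    · rintro ⟨T, ⟨_, h⟩, h2⟩
      rw [h2]; exact h
  rw [h1]
  refine @Finset.measurableSet_biUnion Ω (Finset ι) (F X (S : Set ι)) _ _ fun T hT => ?_
  have hTS : T ⊆ S := mem_powerset.1 (mem_filter.1 hT).1
  have h2 : {ω | S.filter (fun i => i ∈ X ω) = T} =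
      (⋂ i ∈ T, {ω | i ∈ X ω}) ∩ ⋂ i ∈ S \ T, {ω | i ∈ X ω}ᶜ := by
    ext ω
    simp only [Set.mem_ofPred_eq, Set.mem_inter_iff, Set.mem_iInter, Set.mem_compl_iff]
    constructor
    · intro h
      refine ⟨fun i hi => ?_, fun i hi hc => ?_⟩
      · rw [← h, mem_filter] at hi
        exact hi.2
      · have hi' := Finset.mem_sdiff.1 hi
        apply hi'.2
        rw [← h, mem_filter]
        exact ⟨hi'.1, hc⟩
    · rintro ⟨h3, h4⟩
      ext i
      rw [mem_filter]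
      constructor
      · rintro ⟨h5, h6⟩
        by_contra h7
        exact h4 i (Finset.mem_sdiff.2 ⟨h5, h7⟩) h6
      · intro h5
        exact ⟨hTS h5, h3 i h5⟩
  rw [h2]
  refine @MeasurableSet.inter Ω (F X (S : Set ι)) _ _ ?_ ?_
  · refine @Finset.measurableSet_biInter Ω ι (F X (S : Set ι)) _ _ fun i hi => ?_
    exact F_mem (hTS hi)
  · refine @Finset.measurableSet_biInter Ω ι (F X (S : Set ι)) _ _ fun i hi => ?_
    exact @MeasurableSet.compl Ω _ (F X (S : Set ι)) (F_mem (Finset.mem_sdiff.1 hi).1)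

/-- the same for an event given by a condition on the set -/
theorem fin_meas' {Ω ι : Type} (X : Ω → Set ι) (S : Finset ι) (G : Set ι → Prop)
    (hG : ∀ x y : Set ι, (∀ i ∈ S, i ∈ x ↔ i ∈ y) → (G x ↔ G y)) :
    MeasurableSet[F X (S : Set ι)] {ω | G (X ω)} := by
  classical
  have h := fin_meas X S (fun T => G (T : Set ι))
  have e : {ω | G (X ω)} = {ω | G ((S.filter (fun i => i ∈ X ω) : Finset ι) : Set ι)} := by
    ext ω
    refine hG _ _ fun i hi => ?_
    rw [mem_coe, mem_filter]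
    exact ⟨fun h => ⟨hi, h⟩, fun h => h.2⟩
  rw [e]
  convert h

theorem blk_lt {k n : ℕ} (h : n ∈ blk k) : 2 ^ k ≤ n ∧ n < 2 ^ (k + 1) := by
  unfold blk at h
  rw [mem_Ico] at h
  exact ⟨le_trans (le_max_right _ _) h.1, h.2⟩

theorem step_congr (W : ℕ → Finset ℕ → Finset ℕ) (R c R' c' : Set ℕ) (k : ℕ)
    (hR : ∀ n < 2 ^ k, n ∈ R ↔ n ∈ R') (hc : ∀ j < k, j ∈ c ↔ j ∈ c') :
    step W R c k = step W R' c' k := by
  classical
  induction k with
  | zero => rfl
  | succ k ih =>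
    have ih' := ih (fun n hn => hR n (lt_of_lt_of_le hn (Nat.pow_le_pow_right (by norm_num) (by omega))))
      (fun j hj => hc j (by omega))
    unfold step
    rw [ih']
    congr 1
    refine filter_congr fun n hn => ?_
    rw [hR n (blk_lt hn).2, hc k (by omega)]

/-- the coordinates of the past -/
def past (k : ℕ) : Finset (ℕ ⊕ ℕ) := (range (2 ^ k)).disjSum (range k)

/-- the coordinates of the block -/
def pres (k : ℕ) : Finset (ℕ ⊕ ℕ) := (blk k).disjSum {k}

theorem past_pres (k : ℕ) : Disjoint ((past k : Finset (ℕ ⊕ ℕ)) : Set (ℕ ⊕ ℕ)) (pres k) := by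
  rw [Set.disjoint_left]
  rintro (n | j) h1 h2
  · rw [mem_coe] at h1 h2
    unfold past at h1
    unfold pres at h2
    rw [inl_mem_disjSum, mem_range] at h1
    rw [inl_mem_disjSum] at h2
    have := (blk_lt h2).1
    omega
  · rw [mem_coe] at h1 h2
    unfold past at h1
    unfold pres at h2
    rw [inr_mem_disjSum, mem_range] at h1
    rw [inr_mem_disjSum, mem_singleton] at h2
    omega

theorem step_meas {Ω : Type} (X : Ω → Set (ℕ ⊕ ℕ)) (W : ℕ → Finset ℕ → Finset ℕ) (k : ℕ)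
    (G : Finset ℕ → Prop) :
    MeasurableSet[F X (past k : Set (ℕ ⊕ ℕ))] {ω | G (step W (Rn (X ω)) (Cn (X ω)) k)} := by
  refine fin_meas' X (past k) (fun x => G (step W (Rn x) (Cn x) k)) ?_
  intro x y hxy
  rw [step_congr W (Rn x) (Cn x) (Rn y) (Cn y) k]
  · intro n hn
    exact hxy (Sum.inl n) (inl_mem_disjSum.2 (mem_range.2 hn))
  · intro j hj
    exact hxy (Sum.inr j) (inr_mem_disjSum.2 (mem_range.2 hj))

theorem Rn_model {Ω : Type} [MeasurableSpace Ω] {μ : Measure Ω} [IsProbabilityMeasure μ]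
    {X : Ω → Set (ℕ ⊕ ℕ)} {q : ℕ → ℝ} (hX : IsModel μ (Sum.elim pc q) X) :
    IsModel μ pc (fun ω => Rn (X ω)) := by
  have hm : ∀ i, MeasurableSet {ω | i ∈ Rn (X ω)} := fun i => hX.meas (Sum.inl i)
  refine ⟨hm, ?_, fun i => hX.prob (Sum.inl i)⟩
  rw [iIndepSet_iff_meas_biInter hm]
  intro s
  have h1 := hX.indep.meas_biInter (s.map Function.Embedding.inl)
  rw [prod_map] at h1
  have h2 : (⋂ i ∈ s.map (Function.Embedding.inl (α := ℕ) (β := ℕ)), {ω | i ∈ X ω}) =
      ⋂ i ∈ s, {ω | i ∈ Rn (X ω)} := by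
    ext ω
    simp only [Set.mem_iInter, Finset.mem_map]
    constructor
    · intro h i hi
      exact h (Sum.inl i) ⟨i, hi, rfl⟩
    · rintro h _ ⟨i, hi, rfl⟩
      exact h i hi
  rw [h2] at h1
  exact h1

/-- **Job COND** -/
theorem t_COND : J_COND := by
  intro hST hLAW Ω _ μ _ X q hq hX W
  classical
  obtain ⟨hlow, hex, hdel⟩ := hST
  have hR := Rn_model hX
  have hlaw := (hLAW Ω μ (fun ω => Rn (X ω))).2 hR
  have hFle : ∀ S : Set (ℕ ⊕ ℕ), F X S ≤ ‹MeasurableSpace Ω› := F_le hX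
  refine ⟨?_, ?_⟩
  · -- measurability
    intro n
    by_cases hn : 3 ≤ n
    · obtain ⟨k, hk⟩ := hex n hn
      have hk' : n ∈ low (k + 1) := by
        rw [(hlow k).1]; exact mem_union_right _ hk
      have e : {ω | n ∈ del W (Rn (X ω)) (Cn (X ω))} =
          {ω | n ∈ step W (Rn (X ω)) (Cn (X ω)) (k + 1)} := by
        ext ω
        exact ((hdel W (Rn (X ω)) (Cn (X ω))).2 (k + 1)).2.1 n hk'
      rw [e]
      exact hFle _ _ (step_meas X W (k + 1) (fun T => n ∈ T))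
    · have e : {ω | n ∈ del W (Rn (X ω)) (Cn (X ω))} = ∅ := by
        ext ω
        simp only [Set.mem_ofPred_eq, Set.mem_empty_iff_false, iff_false]
        intro h
        exact hn ((hdel W (Rn (X ω)) (Cn (X ω))).1 n h).1
      rw [e]
      exact MeasurableSet.empty
  · intro k T hT
    set T1 := T ∩ low k with hT1
    set T2 := T ∩ blk k with hT2
    have hT1low : T1 ⊆ low k := inter_subset_right
    have hT2blk : T2 ⊆ blk k := inter_subset_right
    -- the past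
    have hE1 : {ω | ∀ n ∈ low k, (n ∈ del W (Rn (X ω)) (Cn (X ω)) ↔ n ∈ T1)} =
        {ω | step W (Rn (X ω)) (Cn (X ω)) k = T1} := by
      ext ω
      obtain ⟨h1, h2, -⟩ := (hdel W (Rn (X ω)) (Cn (X ω))).2 k
      simp only [Set.mem_ofPred_eq]
      constructor
      · intro h
        ext n
        constructor
        · intro hn
          exact (h n (h1 hn)).1 ((h2 n (h1 hn)).2 hn)
        · intro hn
          exact (h2 n (hT1low hn)).1 ((h n (hT1low hn)).2 hn)
      · intro h n hn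
        rw [h2 n hn, h]
    have hE1m : MeasurableSet[F X (past k : Set (ℕ ⊕ ℕ))]
        {ω | step W (Rn (X ω)) (Cn (X ω)) k = T1} := step_meas X W k (fun S => S = T1)
    -- the block
    have hE2m : MeasurableSet[F X (pres k : Set (ℕ ⊕ ℕ))]
        {ω | ∀ n ∈ blk k, ((n ∈ Rn (X ω) ∧ ¬ (k ∈ Cn (X ω) ∧ n ∈ W k T1)) ↔ n ∈ T2)} := by
      refine fin_meas' X (pres k)
        (fun x => ∀ n ∈ blk k, ((n ∈ Rn x ∧ ¬ (k ∈ Cn x ∧ n ∈ W k T1)) ↔ n ∈ T2)) ?_
      intro x y hxy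
      have h1 : ∀ n ∈ blk k, (n ∈ Rn x ↔ n ∈ Rn y) := fun n hn =>
        hxy (Sum.inl n) (inl_mem_disjSum.2 hn)
      have h2 : k ∈ Cn x ↔ k ∈ Cn y := hxy (Sum.inr k) (inr_mem_disjSum.2 (mem_singleton_self k))
      refine forall₂_congr fun n hn => ?_
      rw [h1 n hn, h2]
    have hsplit : {ω | ∀ n ∈ low (k + 1), (n ∈ del W (Rn (X ω)) (Cn (X ω)) ↔ n ∈ T)} =
        {ω | step W (Rn (X ω)) (Cn (X ω)) k = T1} ∩
        {ω | ∀ n ∈ blk k, ((n ∈ Rn (X ω) ∧ ¬ (k ∈ Cn (X ω) ∧ n ∈ W k T1)) ↔ n ∈ T2)} := by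
      rw [← hE1]
      ext ω
      obtain ⟨h1, h2, h3⟩ := (hdel W (Rn (X ω)) (Cn (X ω))).2 k
      have hE := Set.ext_iff.1 hE1 ω
      simp only [Set.mem_ofPred_eq] at hE
      simp only [Set.mem_ofPred_eq, Set.mem_inter_iff]
      have hm1 : ∀ n ∈ low k, (n ∈ T1 ↔ n ∈ T) := fun n hn => by
        rw [hT1, mem_inter]; exact ⟨fun h => h.1, fun h => ⟨h, hn⟩⟩
      have hm2 : ∀ n ∈ blk k, (n ∈ T2 ↔ n ∈ T) := fun n hn => by
        rw [hT2, mem_inter]; exact ⟨fun h => h.1, fun h => ⟨h, hn⟩⟩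
      constructor
      · intro h
        have h4 : ∀ n ∈ low k, (n ∈ del W (Rn (X ω)) (Cn (X ω)) ↔ n ∈ T1) := fun n hn => by
          rw [hm1 n hn]
          exact h n (by rw [(hlow k).1]; exact mem_union_left _ hn)
        refine ⟨h4, fun n hn => ?_⟩
        have h5 := hE.1 h4
        have h6 := h3 n hn
        rw [h5] at h6
        rw [← h6, hm2 n hn]
        exact h n (by rw [(hlow k).1]; exact mem_union_right _ hn)
      · rintro ⟨h4, h5⟩ n hn
        rw [(hlow k).1, mem_union] at hn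
        rcases hn with hn | hn
        · rw [h4 n hn, hm1 n hn]
        · have h6 := h3 n hn
          rw [hE.1 h4] at h6
          rw [h6, h5 n hn, hm2 n hn]
    have hmain : lawOn μ (fun ω => del W (Rn (X ω)) (Cn (X ω))) (low (k + 1)) T =
        lawOn μ (fun ω => del W (Rn (X ω)) (Cn (X ω))) (low k) T1 * μ.real
        {ω | ∀ n ∈ blk k, ((n ∈ Rn (X ω) ∧ ¬ (k ∈ Cn (X ω) ∧ n ∈ W k T1)) ↔ n ∈ T2)} := by
      unfold lawOn
      rw [hsplit, hE1]
      exact indep_real hX (past_pres k) hE1m hE2m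
    rw [hmain]
    congr 1
    -- the law in the block
    have hB3 : ∀ n ∈ blk k, 3 ≤ n := by
      intro n hn
      unfold blk at hn
      rw [mem_Ico] at hn
      exact le_trans (le_max_left _ _) hn.1
    have hCm : MeasurableSet[F X ({Sum.inr k} : Set (ℕ ⊕ ℕ))] {ω | k ∈ Cn (X ω)} :=
      F_mem (A := X) (i := Sum.inr k) (Set.mem_singleton _)
    have hCm' : MeasurableSet[F X ({Sum.inr k} : Set (ℕ ⊕ ℕ))] {ω | k ∈ Cn (X ω)}ᶜ :=
      @MeasurableSet.compl Ω _ (F X ({Sum.inr k} : Set (ℕ ⊕ ℕ))) hCm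
    have hCr : μ.real {ω | k ∈ Cn (X ω)} = q k := hX.prob (Sum.inr k)
    have hCr' : μ.real {ω | k ∈ Cn (X ω)}ᶜ = 1 - q k := by
      rw [measureReal_compl (hFle _ _ hCm), hCr]
      simp
    have hRm : ∀ B : Finset ℕ, MeasurableSet[F X (Set.range (Sum.inl : ℕ → ℕ ⊕ ℕ))]
        {ω | ∀ n ∈ B, (n ∈ Rn (X ω) ↔ n ∈ T2)} := by
      intro B
      have h1 := fin_meas' X (B.disjSum ∅) (fun x => ∀ n ∈ B, (n ∈ Rn x ↔ n ∈ T2)) (by
        intro x y hxy
        refine forall₂_congr fun n hn => ?_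
        rw [show (n ∈ Rn x ↔ n ∈ Rn y) from hxy (Sum.inl n) (inl_mem_disjSum.2 hn)])
      refine F_mono ?_ _ h1
      rintro (n | j) h
      · exact ⟨n, rfl⟩
      · rw [mem_coe, inr_mem_disjSum] at h
        exact absurd h (notMem_empty j)
    have hdis : Disjoint (Set.range (Sum.inl : ℕ → ℕ ⊕ ℕ)) ({Sum.inr k} : Set (ℕ ⊕ ℕ)) := by
      rw [Set.disjoint_singleton_right]
      rintro ⟨n, hn⟩
      exact absurd hn (by simp)
    have hE2M := hFle _ _ hE2m
    have hCM := hFle _ _ hCm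
    rw [← measureReal_inter_add_sdiff hCM]
    have hin : {ω | ∀ n ∈ blk k, ((n ∈ Rn (X ω) ∧ ¬ (k ∈ Cn (X ω) ∧ n ∈ W k T1)) ↔ n ∈ T2)} \
        {ω | k ∈ Cn (X ω)} = {ω | ∀ n ∈ blk k, (n ∈ Rn (X ω) ↔ n ∈ T2)} ∩ {ω | k ∈ Cn (X ω)}ᶜ := by
      ext ω
      simp only [Set.mem_sdiff, Set.mem_inter_iff, Set.mem_compl_iff, Set.mem_ofPred_eq]
      refine and_congr_left fun hk => ?_
      simp only [hk, false_and, not_false_eq_true, and_true]
    have hin2 : {ω | ∀ n ∈ blk k, ((n ∈ Rn (X ω) ∧ ¬ (k ∈ Cn (X ω) ∧ n ∈ W k T1)) ↔ n ∈ T2)} ∩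
        {ω | k ∈ Cn (X ω)} = if Disjoint T2 (W k T1) then
          {ω | ∀ n ∈ blk k \ W k T1, (n ∈ Rn (X ω) ↔ n ∈ T2)} ∩ {ω | k ∈ Cn (X ω)} else ∅ := by
      split_ifs with hd
      · ext ω
        simp only [Set.mem_inter_iff, Set.mem_ofPred_eq, Finset.mem_sdiff]
        refine and_congr_left fun hk => ?_
        simp only [hk, true_and]
        constructor
        · rintro h n ⟨hn1, hn2⟩
          have := h n hn1
          rw [← this]
          exact ⟨fun h => ⟨h, hn2⟩, fun h => h.1⟩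
        · intro h n hn1
          by_cases hn2 : n ∈ W k T1
          · have : n ∉ T2 := fun h3 => (Finset.disjoint_left.1 hd) h3 hn2
            simp only [hn2, not_true_eq_false, and_false, this]
          · rw [← h n ⟨hn1, hn2⟩]
            exact ⟨fun h => h.1, fun h => ⟨h, hn2⟩⟩
      · rw [Finset.not_disjoint_iff] at hd
        obtain ⟨n, hn1, hn2⟩ := hd
        ext ω
        simp only [Set.mem_inter_iff, Set.mem_ofPred_eq, Set.mem_empty_iff_false, iff_false]
        rintro ⟨h, hk⟩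
        have := (h n (hT2blk hn1)).2 hn1
        exact this.2 ⟨hk, hn2⟩
    rw [hin, indep_real hX hdis (hRm _) hCm', hCr']
    have hl1 : μ.real {ω | ∀ n ∈ blk k, (n ∈ Rn (X ω) ↔ n ∈ T2)} = cramerOn (blk k) T2 :=
      hlaw (blk k) T2 hB3 hT2blk
    rw [hl1, hin2]
    unfold rr
    split_ifs with hd
    · rw [indep_real hX hdis (hRm _) hCm, hCr]
      have hl2 : μ.real {ω | ∀ n ∈ blk k \ W k T1, (n ∈ Rn (X ω) ↔ n ∈ T2)} =
          cramerOn (blk k \ W k T1) T2 := by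
        refine hlaw (blk k \ W k T1) T2 (fun n hn => hB3 n (Finset.mem_sdiff.1 hn).1) ?_
        intro n hn
        rw [Finset.mem_sdiff]
        exact ⟨hT2blk hn, Finset.disjoint_left.1 hd hn⟩
      rw [hl2]
      ring
    · simp only [measureReal_empty]
      ring

end Pool.Agent.Q26.GE
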