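import Pool.Agent.Q38.GE.Stm

/-!
# Project GE, job INV: the inverse of the noncommutative Jacobian has polynomial entries
-/

set_option autoImplicit false

namespace Q26.GE

open Matrix Q38.GE

theorem nil_mem_wds (n d : ℕ) : ([] : Wd n) ∈ wds n (d + 1) := by
  simp [wds]

theorem trw_zero (h1 : S_TR) {K : Type} [Field K] {n : ℕ} : ∀ u : Wd n, trw u (0 : A K n) = 0
  | [] => rfl
  | i :: u => by
    have h := trw_zero h1 (K := K) u
    change trw u (tr i (0 : A K n)) = 0
    rw [map_zero]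
    exact h

/-- the identity of `HasInv` for every solution of the first recursion -/
theorem identity {R : Type} [Ring R] {n : ℕ} (H : Wd n → R) (G0 : R) (h0 : H [] * G0 = 1)
    (g : Wd n → R) (hg0 : g [] = 1)
    (hg : ∀ w, w ≠ [] → g w = ∑ k ∈ Finset.range w.length, (-(H (w.drop k) * G0)) * g (w.take k))
    (w : Wd n) :
    ∑ k ∈ Finset.range (w.length + 1), H (w.drop k) * (G0 * g (w.take k)) =
      if w = [] then 1 else 0 := by
  rw [Finset.sum_range_succ]
  by_cases hw : w = []
  · subst hw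
    simp [hg0, h0]
  · rw [if_neg hw, List.drop_length, List.take_length, ← mul_assoc (H []) G0, h0, one_mul]
    rw [hg w hw]
    rw [← Finset.sum_add_distrib]
    apply Finset.sum_eq_zero
    intro k _
    rw [neg_mul, mul_assoc, add_neg_cancel]

theorem QM_map {R S : Type} [Ring R] [Ring S] {n p : ℕ} (f : R →+* S) (d : ℕ)
    (c : Wd n → Matrix (Fin p) (Fin p) R) (i : Fin n) :
    QM d (fun u => f.mapMatrix (c u)) i = f.mapMatrix (QM d c i) := by
  ext s t
  simp only [QM, RingHom.mapMatrix_apply, Matrix.map_apply]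
  split_ifs <;> simp

theorem prod_QM_map {R S : Type} [Ring R] [Ring S] {n p : ℕ} (f : R →+* S) (d : ℕ)
    (c : Wd n → Matrix (Fin p) (Fin p) R) (w : Wd n) :
    (w.map (QM d (fun u => f.mapMatrix (c u)))).prod = f.mapMatrix ((w.map (QM d c)).prod) := by
  rw [map_list_prod, List.map_map]
  congr 1
  apply List.map_congr_left
  intro i _
  exact QM_map f d c i

theorem nil_of_map {R S : Type} [Ring R] [Ring S] (f : R →+* S) (hf : Function.Injective f) {a : R}
    (h : IsNilpotent (f a)) : IsNilpotent a := by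
  obtain ⟨k, hk⟩ := h
  refine ⟨k, hf ?_⟩
  rw [map_pow, hk, map_zero]

theorem mapMatrix_inj {R S : Type} [Ring R] [Ring S] {m : Type} [Fintype m] [DecidableEq m]
    (f : R →+* S) (hf : Function.Injective f) :
    Function.Injective (f.mapMatrix : Matrix m m R →+* Matrix m m S) := by
  intro M N h
  ext i j
  apply hf
  have := congrFun (congrFun h i) j
  simpa using this

/-- the regularity hypothesis -/
theorem regular (h2 : S_DLF) {K : Type} [Field K] {n : ℕ} (φ : A K n →ₐ[K] A K n)
    (hφ : JStar φ) (d : ℕ) (hd : ∀ i (u : Wd n), d < u.length → trw u (φ (x K i)) = 0)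
    (c : Wd n → Matrix (Fin n) (Fin n) (A K n)) (hc : ∀ u, c u * Hm φ [] = - Hm φ u)
    (L : Type) [Field L] [Algebra K L] (ℓ r : ℕ) (Y : Fin n → Matrix (Fin ℓ) (Fin ℓ) L)
    (X : Fin n → Matrix (Fin r) (Fin r) L) (W : Fin n → Matrix (Fin r) (Fin ℓ) L)
    (hW : ∀ b, W b = ∑ u ∈ (wds n (d + 1)).erase [], ∑ a, mo X u * W a *
      ev (K := K) Y (c u a b)) : ∀ b, W b = 0 := by
  apply hφ L (Fin r) (Fin ℓ) X Y W
  intro i
  have hdl : dl X Y W (φ (x K i)) =
      ∑ u ∈ wds n (d + 1), ∑ j, mo X u * W j * ev (K := K) Y (Hm φ u j i) :=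
    h2 K n L (Fin r) (Fin ℓ) X Y W (φ (x K i)) (d + 1) (fun u hu => hd i u hu)
  rw [hdl, ← Finset.insert_erase (nil_mem_wds n d), Finset.sum_insert (Finset.notMem_erase _ _)]
  have e1 : ∀ b, mo X [] * W b * ev (K := K) Y (Hm φ [] b i) =
      ∑ u ∈ (wds n (d + 1)).erase [], ∑ a, mo X u * W a *
        (ev (K := K) Y (c u a b) * ev (K := K) Y (Hm φ [] b i)) := by
    intro b
    have e2 : mo X [] * W b = W b := by simp [mo]
    rw [e2]
    conv_lhs => rw [hW b]
    rw [Matrix.sum_mul]
    refine Finset.sum_congr rfl fun u _ => ?_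
    rw [Matrix.sum_mul]
    refine Finset.sum_congr rfl fun a _ => ?_
    rw [Matrix.mul_assoc]
  have key : ∑ b, mo X [] * W b * ev (K := K) Y (Hm φ [] b i) =
      - ∑ u ∈ (wds n (d + 1)).erase [], ∑ a, mo X u * W a * ev (K := K) Y (Hm φ u a i) := by
    rw [Finset.sum_congr rfl fun b _ => e1 b, Finset.sum_comm, ← Finset.sum_neg_distrib]
    refine Finset.sum_congr rfl fun u _ => ?_
    rw [Finset.sum_comm, ← Finset.sum_neg_distrib]
    refine Finset.sum_congr rfl fun a _ => ?_
    rw [← Matrix.mul_sum, ← Matrix.mul_neg]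
    congr 1
    have e3 : ∑ b, ev (K := K) Y (c u a b) * ev (K := K) Y (Hm φ [] b i) =
        ev (K := K) Y ((c u * Hm φ []) a i) := by
      rw [Matrix.mul_apply, map_sum]
      simp only [map_mul]
    rw [e3, hc, Matrix.neg_apply, map_neg]
  rw [key, neg_add_cancel]

theorem inv (h1 : S_TR) (h2 : S_DLF) (h3 : S_GEO) (h4 : S_PEN) (h5 : S_REG) (h6 : S_DIV)
    (h7 : S_H0) : S_INV := by
  intro K _ n φ hφ
  obtain ⟨G0, hG1, hG2⟩ := h7 K n φ hφ
  obtain ⟨-, -, -, -, hfin, -⟩ := h1 K n
  choose N hN using fun i => hfin (φ (x K i))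
  obtain ⟨d, hd1, hd⟩ : ∃ d : ℕ, 1 ≤ d ∧ ∀ i (u : Wd n), d < u.length →
      trw u (φ (x K i)) = 0 := by
    refine ⟨Finset.univ.sup N + 1, by omega, fun i u hu => hN i u ?_⟩
    have : N i ≤ Finset.univ.sup N := Finset.le_sup (Finset.mem_univ i)
    omega
  obtain ⟨g, hg0, hg1, hg2⟩ := h3 (Matrix (Fin n) (Fin n) (A K n)) n (fun u => -(Hm φ u * G0))
  have hc : ∀ u : Wd n, d < u.length → -(Hm φ u * G0) = 0 := by
    intro u hu
    have : Hm φ u = 0 := by
      ext j i
      change tr j (trw u (φ (x K i))) = 0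
      rw [hd i u hu, map_zero]
    rw [this, zero_mul, neg_zero]
  have hlong : ∀ w : Wd n, (wds n d).card * n ≤ w.length → g w = 0 := by
    intro w hw
    by_contra hne
    obtain ⟨i, j, hij⟩ : ∃ i j, g w i j ≠ 0 := by
      by_contra hcon
      push Not at hcon
      exact hne (by ext i j; exact hcon i j)
    obtain ⟨D, _, _, E, _, _, ℓ, e, Y, hℓ, hY⟩ := h6 K n (g w i j) hij
    let ψ : D →ₐ[K] Matrix (Fin ℓ) (Fin ℓ) (AlgebraicClosure E) :=
      ((IsScalarTower.toAlgHom K E (AlgebraicClosure E)).mapMatrix).comp e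
    have : Nonempty (Fin ℓ) := ⟨⟨0, hℓ⟩⟩
    have hψ : Function.Injective (ψ : D →+* Matrix (Fin ℓ) (Fin ℓ) (AlgebraicClosure E)) :=
      RingHom.injective _
    have hev : ∀ a : A K n, ev (K := K) (fun i => ψ (Y i)) a = ψ (ev Y a) := by
      intro a
      have : ev (K := K) (fun i => ψ (Y i)) = ψ.comp (ev Y) := by
        apply FreeAlgebra.hom_ext
        funext i
        simp [ev]
      rw [this]
      rfl
    let evD : Matrix (Fin n) (Fin n) (A K n) →+* Matrix (Fin n) (Fin n) D :=
      ((ev (K := K) Y : A K n →ₐ[K] D) : A K n →+* D).mapMatrix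
    let cD : Wd n → Matrix (Fin n) (Fin n) D := fun u => evD (-(Hm φ u * G0))
    let gD : Wd n → Matrix (Fin n) (Fin n) D := fun u => evD (g u)
    have hcD : ∀ u : Wd n, d < u.length → cD u = 0 := by
      intro u hu
      change evD (-(Hm φ u * G0)) = 0
      rw [hc u hu, map_zero]
    have hnil : ∀ v : Wd n, v ≠ [] → IsNilpotent ((v.map (QM d cD)).prod) := by
      intro v hv
      apply nil_of_map ((ψ : D →+* Matrix (Fin ℓ) (Fin ℓ) (AlgebraicClosure E)).mapMatrix)
        (mapMatrix_inj _ hψ)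
      rw [← prod_QM_map]
      refine h5 (AlgebraicClosure E) n n ℓ d _ hd1 ?_ ?_ v hv
      · intro u hu
        rw [hcD u hu, map_zero]
      · intro r X W hW
        refine regular h2 φ hφ d hd (fun u => -(Hm φ u * G0)) ?_ (AlgebraicClosure E) ℓ r
          (fun i => ψ (Y i)) X W ?_
        · intro u
          rw [neg_mul, mul_assoc, hG2, mul_one]
        intro b
        refine (hW b).trans ?_
        refine Finset.sum_congr rfl fun u _ => Finset.sum_congr rfl fun a _ => ?_
        rw [hev]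
        rfl
    have hrec : ∀ v : Wd n, v ≠ [] → gD v = ∑ k ∈ Finset.range v.length,
        gD (v.drop (k + 1)) * cD (v.take (k + 1)) := by
      intro v hv
      change evD (g v) = _
      rw [hg2 v hv, map_sum]
      refine Finset.sum_congr rfl fun k _ => ?_
      rw [map_mul]
    have hfinal := h4 D n n d cD hd1 hcD hnil gD (by change evD (g []) = 1; rw [hg0, map_one])
      hrec w hw
    apply hY
    have := congrFun (congrFun hfinal i) j
    exact this
  refine ⟨(wds n d).card * n, fun w => G0 * g w, fun w hw => ?_, ?_⟩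
  · change G0 * g w = 0
    rw [hlong w hw, mul_zero]
  intro w
  exact identity (Hm φ) G0 hG1 g hg0 hg1 w

end Q26.GE
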