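import Pool.Agent.Q120.GE.Stm

set_option autoImplicit false

namespace Pool.Agent.Q26.GE

open Finset MeasureTheory ProbabilityTheory Filter Pool.Agent.Q120.ET Pool.Agent.Q120.GM
open Pool.Agent.Q120.GE

theorem log_ge {k : ℕ} (hk : 12 ≤ k) {x : ℕ} (hx : 2 ^ (k - 2) ≤ x) :
    (k : ℝ) / 2 ≤ Real.log x := by
  have h1 : Real.log ((2 : ℝ) ^ (k - 2)) ≤ Real.log x := by
    apply Real.log_le_log (by positivity)
    exact_mod_cast hx
  rw [Real.log_pow] at h1
  have h2 := Real.log_two_gt_d9
  have h3 : ((k - 2 : ℕ) : ℝ) = (k : ℝ) - 2 := by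
    rw [Nat.cast_sub (by omega)]; norm_num
  rw [h3] at h1
  have h4 : (12 : ℝ) ≤ k := by exact_mod_cast hk
  nlinarith

theorem log_le {k : ℕ} (hk : 12 ≤ k) {x : ℕ} (hx0 : 1 ≤ x) (hx : x < 2 ^ (k + 1)) :
    Real.log x ≤ k := by
  have h1 : Real.log x ≤ Real.log ((2 : ℝ) ^ (k + 1)) := by
    apply Real.log_le_log
    · exact_mod_cast hx0
    · exact_mod_cast hx.le
  rw [Real.log_pow] at h1
  have h2 := Real.log_two_lt_d9
  have h4 : (12 : ℝ) ≤ k := by exact_mod_cast hk
  push_cast at h1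
  nlinarith

theorem pow_ge (k : ℕ) (hk : 12 ≤ k) : 1024 ≤ 2 ^ (k - 2) := by
  calc 1024 = 2 ^ 10 := by norm_num
    _ ≤ 2 ^ (k - 2) := Nat.pow_le_pow_right (by norm_num) (by omega)

theorem pc_bounds {k : ℕ} (hk : 12 ≤ k) {x : ℕ} (hx : 2 ^ (k - 2) ≤ x) (hx' : x < 2 ^ (k + 1)) :
    1 / (k : ℝ) ≤ pc x ∧ pc x ≤ 2 / k := by
  have h0 := pow_ge k hk
  have h1 := log_ge hk hx
  have h2 := log_le hk (x := x) (by omega) hx'
  have h4 : (12 : ℝ) ≤ k := by exact_mod_cast hk
  unfold pc
  rw [if_pos (by omega)]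
  constructor
  · apply one_div_le_one_div_of_le
    · linarith
    · exact h2
  · rw [div_le_div_iff₀ (by linarith) (by linarith)]
    linarith

/-- **Job JAN** -/
theorem t_JAN : J_JAN := by
  intro hTHIN Ω _ μ _ A hA k hk T hT hm
  classical
  have hk' : (12 : ℝ) ≤ k := by exact_mod_cast hk
  have h0 := pow_ge k hk
  have e1 : 2 ^ (k - 1) = 2 * 2 ^ (k - 2) := by
    rw [← pow_succ']; congr 1; omega
  have e2 : 2 ^ k = 4 * 2 ^ (k - 2) := by
    rw [show (4 : ℕ) = 2 ^ 2 by norm_num, ← pow_add]; congr 1; omega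
  have e3 : 2 ^ (k + 1) = 8 * 2 ^ (k - 2) := by
    rw [show (8 : ℕ) = 2 ^ 3 by norm_num, ← pow_add]; congr 1; omega
  obtain ⟨q, hq⟩ : ∃ q, q = 2 ^ (k - 2) := ⟨_, rfl⟩
  rw [← hq] at h0 e1 e2 e3
  have hTq : ∀ n ∈ T, 4 * q ≤ n ∧ n < 8 * q := by
    intro n hn
    have := mem_Ico.1 (hT hn)
    rw [e2, e3] at this
    exact this
  set J : Finset (ℕ × ℕ) := T ×ˢ Ico q (2 * q) with hJ
  have hJmem : ∀ j ∈ J, j.1 ∈ T ∧ q ≤ j.2 ∧ j.2 < 2 * q := by
    intro j hj
    rw [hJ, mem_product, mem_Ico] at hj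
    exact hj
  set U : ℕ × ℕ → Finset ℕ := fun j => {j.2, j.1 - j.2} with hU
  have hJcard : J.card = T.card * q := by
    rw [hJ, card_product, Nat.card_Ico]; congr 1; omega
  have hpb : ∀ x, q ≤ x → x < 8 * q → 1 / (k : ℝ) ≤ pc x ∧ pc x ≤ 2 / k := by
    intro x h1 h2
    exact pc_bounds hk (by rw [← hq]; exact h1) (by rw [e3]; exact h2)
  have hUb : ∀ j ∈ J, ∀ x ∈ U j, 1 / (k : ℝ) ≤ pc x ∧ pc x ≤ 2 / k := by
    intro j hj x hx
    obtain ⟨h1, h2, h3⟩ := hJmem j hj
    have h4 := hTq _ h1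
    rw [hU] at hx
    simp only [mem_insert, mem_singleton] at hx
    rcases hx with rfl | rfl
    · exact hpb _ h2 (by omega)
    · exact hpb _ (by omega) (by omega)
  set Y : ℝ := T.card * 2 ^ k / k ^ 2 with hY
  have hqR : (2 : ℝ) ^ k = 4 * q := by exact_mod_cast e2
  have hY0 : 0 ≤ Y := by rw [hY]; positivity
  -- the sum of the probabilities
  have hP : Y / 4 ≤ ∑ j ∈ J, ∏ i ∈ U j, pc i := by
    have h1 : ∀ j ∈ J, (1 / (k : ℝ)) ^ 2 ≤ ∏ i ∈ U j, pc i := by
      intro j hj
      obtain ⟨h1, h2, h3⟩ := hJmem j hj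
      have h4 := hTq _ h1
      have hne : j.2 ≠ j.1 - j.2 := by omega
      rw [hU]
      simp only
      rw [prod_pair hne, sq]
      have h5 := (hpb j.2 h2 (by omega)).1
      have h6 := (hpb (j.1 - j.2) (by omega) (by omega)).1
      exact mul_le_mul h5 h6 (by positivity) (le_trans (by positivity) h5)
    have h2 := card_nsmul_le_sum J _ _ h1
    refine le_trans (le_of_eq ?_) h2
    rw [hJcard, nsmul_eq_mul, hY, hqR]
    push_cast
    field_simp
  -- the double sum
  have hk1 : 2 / (k : ℝ) ≤ 1 := by rw [div_le_one (by linarith)]; linarith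
  have hk0 : 0 ≤ 2 / (k : ℝ) := by positivity
  have hS : ∑ j ∈ J, ∑ l ∈ J with l ≠ j ∧ ¬ Disjoint (U l) (U j), ∏ i ∈ U l ∪ U j, pc i ≤
      Y / 25 := by
    have h1 : ∀ j ∈ J, ∑ l ∈ J with l ≠ j ∧ ¬ Disjoint (U l) (U j), ∏ i ∈ U l ∪ U j, pc i ≤
        (2 * T.card : ℕ) * (2 / (k : ℝ)) ^ 3 := by
      intro j hj
      obtain ⟨h1, h2, h3⟩ := hJmem j hj
      have h4 := hTq _ h1
      have hcard : (J.filter (fun l => l ≠ j ∧ ¬ Disjoint (U l) (U j))).card ≤ 2 * T.card := by
        have hsub : J.filter (fun l => l ≠ j ∧ ¬ Disjoint (U l) (U j)) ⊆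
            (T.image fun n => (n, j.2)) ∪ (T.image fun n => (n, n - (j.1 - j.2))) := by
          intro l hl
          rw [mem_filter] at hl
          obtain ⟨hl1, hl2, hl3⟩ := hl
          obtain ⟨g1, g2, g3⟩ := hJmem l hl1
          have g4 := hTq _ g1
          rw [not_disjoint_iff] at hl3
          obtain ⟨x, hx1, hx2⟩ := hl3
          rw [hU] at hx1 hx2
          simp only [mem_insert, mem_singleton] at hx1 hx2
          rw [mem_union, mem_image, mem_image]
          rcases hx1 with hx1 | hx1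
          · rcases hx2 with hx2 | hx2
            · left
              exact ⟨l.1, g1, Prod.ext rfl (by rw [← hx2, hx1])⟩
            · exfalso; omega
          · rcases hx2 with hx2 | hx2
            · exfalso; omega
            · right
              exact ⟨l.1, g1, Prod.ext rfl (by simp only; omega)⟩
        refine (card_le_card hsub).trans ((card_union_le _ _).trans ?_)
        have := card_image_le (s := T) (f := fun n => (n, j.2))
        have := card_image_le (s := T) (f := fun n => (n, n - (j.1 - j.2)))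
        omega
      have hterm : ∀ l ∈ J.filter (fun l => l ≠ j ∧ ¬ Disjoint (U l) (U j)),
          ∏ i ∈ U l ∪ U j, pc i ≤ (2 / (k : ℝ)) ^ 3 := by
        intro l hl
        rw [mem_filter] at hl
        obtain ⟨hl1, hl2, -⟩ := hl
        obtain ⟨g1, g2, g3⟩ := hJmem l hl1
        have g4 := hTq _ g1
        have hthree : 3 ≤ (U l ∪ U j).card := by
          by_cases hc : l.2 = j.2
          · have hne : l.1 ≠ j.1 := fun h => hl2 (Prod.ext h hc)
            have hsub : ({j.2, j.1 - j.2, l.1 - l.2} : Finset ℕ) ⊆ U l ∪ U j := by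
              intro x hx
              rw [hU]
              simp only [mem_insert, mem_singleton, mem_union] at hx ⊢
              tauto
            refine le_trans (le_of_eq ?_) (card_le_card hsub)
            rw [card_insert_of_notMem, card_pair]
            · omega
            · simp only [mem_insert, mem_singleton]
              omega
          · have hsub : ({l.2, j.2, j.1 - j.2} : Finset ℕ) ⊆ U l ∪ U j := by
              intro x hx
              rw [hU]
              simp only [mem_insert, mem_singleton, mem_union] at hx ⊢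
              tauto
            refine le_trans (le_of_eq ?_) (card_le_card hsub)
            rw [card_insert_of_notMem, card_pair]
            · omega
            · simp only [mem_insert, mem_singleton]
              omega
        have hb : ∀ i ∈ U l ∪ U j, 0 ≤ pc i ∧ pc i ≤ 2 / (k : ℝ) := by
          intro i hi
          rcases mem_union.1 hi with hi | hi
          · have := hUb l hl1 i hi
            exact ⟨le_trans (by positivity) this.1, this.2⟩
          · have := hUb j hj i hi
            exact ⟨le_trans (by positivity) this.1, this.2⟩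
        calc ∏ i ∈ U l ∪ U j, pc i ≤ ∏ i ∈ U l ∪ U j, (2 / (k : ℝ)) :=
              prod_le_prod (fun i hi => (hb i hi).1) (fun i hi => (hb i hi).2)
          _ = (2 / (k : ℝ)) ^ (U l ∪ U j).card := by rw [prod_const]
          _ ≤ (2 / (k : ℝ)) ^ 3 := pow_le_pow_of_le_one hk0 hk1 hthree
      refine (sum_le_card_nsmul _ _ _ hterm).trans ?_
      rw [nsmul_eq_mul]
      exact mul_le_mul_of_nonneg_right (by exact_mod_cast hcard) (by positivity)
    have h2 := sum_le_card_nsmul J _ _ h1
    refine h2.trans ?_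
    rw [nsmul_eq_mul, hJcard, hY, hqR]
    push_cast
    have h5 : (T.card : ℝ) * q * (2 * T.card * (2 / k) ^ 3) =
        (T.card * (4 * q) / k ^ 2) * (4 * (T.card / k)) := by
      field_simp
      ring
    rw [h5]
    have h6 : (T.card : ℝ) / k ≤ 1 / 100 := by
      rw [div_le_iff₀ (by linarith)]
      linarith
    have h7 : (0 : ℝ) ≤ T.card * (4 * q) / k ^ 2 := by positivity
    nlinarith
  -- the number of representations
  obtain ⟨s, hs⟩ : ∃ s : ℕ, s = ⌊(2 / 25 : ℝ) * Y⌋₊ := ⟨_, rfl⟩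
  have hsub : {ω | ∀ n ∈ T, (rep (A ω) n : ℝ) ≤ 1 / 100 * main n} ⊆
      {ω | (J.filter (fun j => ∀ i ∈ U j, i ∈ A ω)).card ≤ s} := by
    intro ω hω
    have hω : ∀ n ∈ T, (rep (A ω) n : ℝ) ≤ 1 / 100 * main n := hω
    change (J.filter (fun j => ∀ i ∈ U j, i ∈ A ω)).card ≤ s
    rw [hs]
    apply Nat.le_floor
    have h1 : (J.filter (fun j => ∀ i ∈ U j, i ∈ A ω)).card ≤ ∑ n ∈ T, rep (A ω) n := by
      rw [card_eq_sum_card_fiberwise (f := Prod.fst) (t := T)]
      · refine sum_le_sum fun n hn => ?_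
        unfold rep
        refine card_le_card_of_injOn Prod.snd ?_ ?_
        · intro j hj
          rw [mem_coe, mem_filter, mem_filter] at hj
          obtain ⟨⟨hj1, hj2⟩, hj3⟩ := hj
          obtain ⟨g1, g2, g3⟩ := hJmem j hj1
          have g4 := hTq _ g1
          rw [mem_coe, mem_filter, mem_range, ← hj3]
          refine ⟨by omega, hj2 _ ?_, hj2 _ ?_, by omega, by omega⟩
          · rw [hU]; simp
          · rw [hU]; simp
        · intro j hj l hl hjl
          rw [mem_coe, mem_filter] at hj hl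
          exact Prod.ext (hj.2.trans hl.2.symm) hjl
      · intro j hj
        rw [mem_coe, mem_filter] at hj
        exact (hJmem j hj.1).1
    have h2 : ∀ n ∈ T, (rep (A ω) n : ℝ) ≤ 2 / 25 * (2 ^ k / k ^ 2) := by
      intro n hn
      refine (hω n hn).trans ?_
      have h3 := hTq n hn
      have h4 := log_ge hk (x := n) (by rw [← hq]; omega)
      have h5 : (n : ℝ) ≤ 8 * q := by exact_mod_cast h3.2.le
      have h6 : main n ≤ (8 * q) / ((k : ℝ) / 2) ^ 2 := by
        unfold main
        apply div_le_div₀ (by positivity) h5 (by positivity)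
        exact pow_le_pow_left₀ (by positivity) h4 2
      rw [hqR]
      have h7 : (8 * (q : ℝ)) / ((k : ℝ) / 2) ^ 2 = 8 * (4 * q / k ^ 2) := by
        field_simp
        ring
      rw [h7] at h6
      linarith
    calc ((J.filter (fun j => ∀ i ∈ U j, i ∈ A ω)).card : ℝ) ≤ ((∑ n ∈ T, rep (A ω) n : ℕ) : ℝ) := by
          exact_mod_cast h1
      _ = ∑ n ∈ T, (rep (A ω) n : ℝ) := by push_cast; rfl
      _ ≤ T.card • (2 / 25 * (2 ^ k / k ^ 2) : ℝ) := sum_le_card_nsmul _ _ _ h2
      _ = 2 / 25 * Y := by rw [nsmul_eq_mul, hY]; ring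
  have hmain := hTHIN Ω μ pc A hA J U s
  refine (measureReal_mono hsub (measure_ne_top _ _)).trans (le_trans ?_ (hmain.trans ?_))
  · apply le_of_eq
    congr
  · have h2s : (2 : ℝ) ^ s ≤ Real.exp (7 / 125 * Y) := by
      have h3 : (2 : ℝ) ^ s = Real.exp (s * Real.log 2) := by
        rw [Real.exp_nat_mul, Real.exp_log (by norm_num)]
      rw [h3, Real.exp_le_exp]
      have h4 : (s : ℝ) ≤ 2 / 25 * Y := by
        rw [hs]; exact Nat.floor_le (by positivity)
      have h5 := Real.log_two_lt_d9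
      have h6 := Real.log_two_gt_d9
      have h7 : (0 : ℝ) ≤ s := by positivity
      nlinarith
    refine (mul_le_mul_of_nonneg_right h2s (Real.exp_pos _).le).trans ?_
    rw [← Real.exp_add, Real.exp_le_exp]
    have hS' : (∑ j ∈ J, ∑ l ∈ J with l ≠ j ∧ ¬ Disjoint (U l) (U j), ∏ i ∈ U l ∪ U j, pc i) ≤
      Y / 25 := hS
    linarith

end Pool.Agent.Q26.GE
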