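import Pool.Agent.Q120.GE.Stm

set_option autoImplicit false

namespace Pool.Agent.Q26.GE

open Finset MeasureTheory ProbabilityTheory Filter Pool.Agent.Q120.ET Pool.Agent.Q120.GM
open Pool.Agent.Q120.GE

variable {Ω : Type} [MeasurableSpace Ω] {μ : Measure Ω} [IsProbabilityMeasure μ] {p : ℕ → ℝ}
  {A : Ω → Set ℕ}

/-- the coins -/
noncomputable def cn : Measure (ℕ × ℕ → Bool) := prodMeasure (fun _ : ℕ × ℕ => (1 / 2 : ℝ))

instance : IsProbabilityMeasure cn := by unfold cn; infer_instance

theorem cn_model : IsModel cn (fun _ : ℕ × ℕ => (1 / 2 : ℝ)) (trueSet (ι := ℕ × ℕ)) :=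
  isModel _ (fun _ => by norm_num) (fun _ => by norm_num)

/-- the model with coins -/
def BB (A : Ω → Set ℕ) (z : Ω × (ℕ × ℕ → Bool)) : Set (ℕ ⊕ (ℕ × ℕ)) :=
  {x | Sum.elim (fun i => i ∈ A z.1) (fun j => j ∈ trueSet z.2) x}

omit [MeasurableSpace Ω] in
theorem BB_inl (A : Ω → Set ℕ) (i : ℕ) :
    {z : Ω × (ℕ × ℕ → Bool) | Sum.inl i ∈ BB A z} = {ω | i ∈ A ω} ×ˢ Set.univ := by
  ext z; simp [BB]

omit [MeasurableSpace Ω] in
theorem BB_inr (A : Ω → Set ℕ) (j : ℕ × ℕ) :
    {z : Ω × (ℕ × ℕ → Bool) | Sum.inr j ∈ BB A z} = Set.univ ×ˢ {η | j ∈ trueSet η} := by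
  ext z; simp [BB]

theorem BB_model (hA : IsModel μ p A) :
    IsModel (μ.prod cn) (Sum.elim p (fun _ => (1 / 2 : ℝ))) (BB A) := by
  have hm : ∀ x, MeasurableSet {z | x ∈ BB A z} := by
    rintro (i | j)
    · rw [BB_inl]; exact (hA.meas i).prod MeasurableSet.univ
    · rw [BB_inr]; exact MeasurableSet.univ.prod (cn_model.meas j)
  refine ⟨hm, ?_, ?_⟩
  · rw [iIndepSet_iff_meas_biInter hm]
    intro s
    have hset : (⋂ x ∈ s, {z | x ∈ BB A z}) =
        (⋂ i ∈ s.toLeft, {ω | i ∈ A ω}) ×ˢ (⋂ j ∈ s.toRight, {η | j ∈ trueSet η}) := by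
      ext z
      simp only [Set.mem_iInter, Set.mem_prod, mem_toLeft, mem_toRight]
      constructor
      · intro h
        exact ⟨fun i hi => h _ hi, fun j hj => h _ hj⟩
      · rintro ⟨h1, h2⟩ (i | j) hx
        · exact h1 i hx
        · exact h2 j hx
    rw [hset, Measure.prod_prod, hA.indep.meas_biInter, cn_model.indep.meas_biInter]
    conv_rhs => rw [← toLeft_disjSum_toRight (u := s)]
    rw [prod_disjSum]
    congr 1
    · refine prod_congr rfl fun i _ => ?_
      rw [BB_inl, Measure.prod_prod, measure_univ, mul_one]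
    · refine prod_congr rfl fun i _ => ?_
      rw [BB_inr, Measure.prod_prod, measure_univ, one_mul]
  · rintro (i | j)
    · rw [BB_inl, measureReal_def, Measure.prod_prod, measure_univ, mul_one]
      exact hA.prob i
    · rw [BB_inr, measureReal_def, Measure.prod_prod, measure_univ, one_mul]
      exact cn_model.prob j

open Classical in
/-- the sets `U j` contained in `A` -/
noncomputable def ft (A : Ω → Set ℕ) (J : Finset (ℕ × ℕ)) (U : ℕ × ℕ → Finset ℕ) (ω : Ω) :
    Finset (ℕ × ℕ) := J.filter (fun j => ∀ i ∈ U j, i ∈ A ω)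

theorem meas_ft (hA : IsModel μ p A) (J : Finset (ℕ × ℕ)) (U : ℕ × ℕ → Finset ℕ)
    (T : Finset (ℕ × ℕ)) : MeasurableSet {ω | ft A J U ω = T} := by
  classical
  by_cases hT : T ⊆ J
  · have hset : {ω | ft A J U ω = T} = (⋂ j ∈ T, all A (U j)) ∩ ⋂ j ∈ J \ T, (all A (U j))ᶜ := by
      ext ω
      simp only [Set.mem_inter_iff, Set.mem_iInter, Set.mem_compl_iff]
      have key : ∀ j, j ∈ ft A J U ω ↔ j ∈ J ∧ ω ∈ all A (U j) := fun j => by
        unfold ft all
        rw [mem_filter]
        rfl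
      constructor
      · intro h
        have h : ft A J U ω = T := h
        refine ⟨fun j hj => ((key j).1 (h ▸ hj)).2, fun j hj hc => (mem_sdiff.1 hj).2 ?_⟩
        rw [← h]
        exact (key j).2 ⟨(mem_sdiff.1 hj).1, hc⟩
      · rintro ⟨h1, h2⟩
        change ft A J U ω = T
        ext j
        rw [key]
        constructor
        · rintro ⟨h3, h4⟩
          by_contra h5
          exact h2 j (mem_sdiff.2 ⟨h3, h5⟩) h4
        · intro h3
          exact ⟨hT h3, h1 j h3⟩
    rw [hset]
    refine MeasurableSet.inter ?_ ?_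
    · exact Finset.measurableSet_biInter _ fun j _ => meas_all hA _
    · exact Finset.measurableSet_biInter _ fun j _ => (meas_all hA _).compl
  · have : {ω | ft A J U ω = T} = ∅ := by
      ext ω
      simp only [Set.mem_empty_iff_false, iff_false]
      intro h
      have h : ft A J U ω = T := h
      apply hT
      rw [← h]
      unfold ft
      exact filter_subset _ _
    rw [this]
    exact MeasurableSet.empty

theorem lower (hA : IsModel μ p A) (J : Finset (ℕ × ℕ)) (U : ℕ × ℕ → Finset ℕ) (s : ℕ) :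
    μ.real {ω | (ft A J U ω).card ≤ s} ≤
      2 ^ s * (μ.prod cn).real (none (BB A) J (fun j => (U j).disjSum {j})) := by
  classical
  set P := J.powerset.filter (fun T => T.card ≤ s) with hP
  have h1 : μ.real {ω | (ft A J U ω).card ≤ s} ≤ ∑ T ∈ P, μ.real {ω | ft A J U ω = T} := by
    refine le_trans (measureReal_mono (s₂ := ⋃ T ∈ P, {ω | ft A J U ω = T}) ?_
      (measure_ne_top _ _)) (measureReal_biUnion_finset_le _ _)
    intro ω hω
    refine Set.mem_biUnion (x := ft A J U ω) ?_ rfl
    rw [hP]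
    simp only [coe_filter, mem_powerset]
    exact ⟨filter_subset _ _, hω⟩
  have h2 : ∑ T ∈ P, (μ.prod cn).real ({ω | ft A J U ω = T} ×ˢ
      none (trueSet (ι := ℕ × ℕ)) T (fun j => {j})) ≤
      (μ.prod cn).real (none (BB A) J (fun j => (U j).disjSum {j})) := by
    rw [← measureReal_biUnion_finset]
    · refine measureReal_mono ?_ (measure_ne_top _ _)
      intro z hz
      simp only [Set.mem_iUnion] at hz
      obtain ⟨T, _, hz1, hz2⟩ := hz
      intro j hj hall
      have hz1 : ft A J U z.1 = T := hz1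
      have hjT : j ∈ T := by
        rw [← hz1]
        unfold ft
        rw [mem_filter]
        refine ⟨hj, fun i hi => ?_⟩
        exact hall (Sum.inl i) (inl_mem_disjSum.2 hi)
      refine hz2 j hjT ?_
      intro i hi
      rw [mem_singleton] at hi
      subst hi
      exact hall (Sum.inr i) (inr_mem_disjSum.2 (mem_singleton_self i))
    · intro T _ T' _ hne
      rw [Function.onFun, Set.disjoint_left]
      rintro z ⟨h3, _⟩ ⟨h4, _⟩
      exact hne (h3.symm.trans h4)
    · intro T _
      exact (meas_ft hA J U T).prod (meas_none cn_model T _)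
  have h3 : ∀ T ∈ P, (1 / 2 : ℝ) ^ s * μ.real {ω | ft A J U ω = T} ≤
      (μ.prod cn).real ({ω | ft A J U ω = T} ×ˢ
      none (trueSet (ι := ℕ × ℕ)) T (fun j => {j})) := by
    intro T hT
    rw [hP, mem_filter] at hT
    have h5 : (μ.prod cn).real ({ω | ft A J U ω = T} ×ˢ
        none (trueSet (ι := ℕ × ℕ)) T (fun j => {j})) = μ.real {ω | ft A J U ω = T} *
        cn.real (none (trueSet (ι := ℕ × ℕ)) T (fun j => {j})) := by
      rw [measureReal_def, Measure.prod_prod, ENNReal.toReal_mul]
      rfl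
    rw [h5, mul_comm]
    refine mul_le_mul_of_nonneg_left ?_ measureReal_nonneg
    have h4 := harris cn_model T (fun j => ({j} : Finset (ℕ × ℕ)))
    have h6 : ∏ j ∈ T, (1 - ∏ i ∈ ({j} : Finset (ℕ × ℕ)), (1 / 2 : ℝ)) = (1 / 2 : ℝ) ^ T.card := by
      rw [← prod_const]
      refine prod_congr rfl fun j _ => ?_
      rw [prod_singleton]
      norm_num
    rw [h6] at h4
    refine le_trans ?_ h4
    exact pow_le_pow_of_le_one (by norm_num) (by norm_num) hT.2
  have h4 : (1 / 2 : ℝ) ^ s * μ.real {ω | (ft A J U ω).card ≤ s} ≤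
      (μ.prod cn).real (none (BB A) J (fun j => (U j).disjSum {j})) := by
    refine le_trans (mul_le_mul_of_nonneg_left h1 (by positivity)) ?_
    rw [mul_sum]
    exact (sum_le_sum h3).trans h2
  calc μ.real {ω | (ft A J U ω).card ≤ s} =
      2 ^ s * ((1 / 2 : ℝ) ^ s * μ.real {ω | (ft A J U ω).card ≤ s}) := by
        rw [← mul_assoc, ← mul_pow]; norm_num
    _ ≤ _ := mul_le_mul_of_nonneg_left h4 (by positivity)

/-- **Job THIN** -/
theorem t_THIN : J_THIN := by
  classical
  intro Ω _ μ _ p A hA J U s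
  have h1 := lower hA J U s
  have h2 := janson (BB_model hA) J (fun j => (U j).disjSum {j})
  refine le_trans ?_ (h1.trans (mul_le_mul_of_nonneg_left (h2.trans (Real.exp_le_exp.2 ?_))
    (by positivity)))
  · apply le_of_eq
    unfold ft
    congr
  · have e1 : ∑ j ∈ J, ∏ i ∈ (U j).disjSum {j}, Sum.elim p (fun _ => (1 / 2 : ℝ)) i =
        (∑ j ∈ J, ∏ i ∈ U j, p i) / 2 := by
      rw [sum_div]
      refine sum_congr rfl fun j _ => ?_
      rw [prod_disjSum]
      simp only [Sum.elim_inl, Sum.elim_inr, prod_singleton]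
      ring
    have e2 : ∑ j ∈ J, ∑ l ∈ J with l ≠ j ∧ ¬ Disjoint ((U l).disjSum {l}) ((U j).disjSum {j}),
        ∏ i ∈ (U l).disjSum {l} ∪ (U j).disjSum {j}, Sum.elim p (fun _ => (1 / 2 : ℝ)) i =
        (∑ j ∈ J, ∑ l ∈ J with l ≠ j ∧ ¬ Disjoint (U l) (U j), ∏ i ∈ U l ∪ U j, p i) / 4 := by
      rw [sum_div]
      refine sum_congr rfl fun j _ => ?_
      rw [sum_div]
      have hfil : J.filter (fun l => l ≠ j ∧ ¬ Disjoint ((U l).disjSum {l}) ((U j).disjSum {j})) =
          J.filter (fun l => l ≠ j ∧ ¬ Disjoint (U l) (U j)) := by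
        refine filter_congr fun l _ => ?_
        refine and_congr_right fun hlj => not_congr ?_
        rw [disjoint_left, disjoint_left]
        constructor
        · intro h i hi hi'
          exact h (inl_mem_disjSum.2 hi) (inl_mem_disjSum.2 hi')
        · rintro h (i | i) hi hi'
          · exact h (inl_mem_disjSum.1 hi) (inl_mem_disjSum.1 hi')
          · rw [inr_mem_disjSum, mem_singleton] at hi hi'
            exact hlj (hi.symm.trans hi')
      rw [hfil]
      refine sum_congr rfl fun l hl => ?_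
      have hlj : l ≠ j := (mem_filter.1 hl).2.1
      have hun : (U l).disjSum {l} ∪ (U j).disjSum {j} = (U l ∪ U j).disjSum {l, j} := by
        ext (i | i)
        · simp
        · simp
      rw [hun, prod_disjSum, prod_pair hlj]
      simp only [Sum.elim_inl, Sum.elim_inr]
      ring
    rw [e1, e2]
    apply le_of_eq
    congr 1
    ring

end Pool.Agent.Q26.GE
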